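import Mathlib

/-! Centres of families of vertices of a cube. -/

set_option autoImplicit false

namespace Q181.Cubic

open Finset

variable {ι : Type*} [Fintype ι] [DecidableEq ι]

/-- The vertices `c` such that for every set `Z` of at most `κ` coordinates some element of `A`
other than `c` agrees with `c` on `Z`. -/
def S (κ : ℕ) (A : Finset (ι → Bool)) : Finset (ι → Bool) :=
  Finset.univ.filter fun c => ∀ Z : Finset ι, Z.card ≤ κ → ∃ a ∈ A, a ≠ c ∧ ∀ i ∈ Z, a i = c i

theorem mem_S {κ : ℕ} {A : Finset (ι → Bool)} {c : ι → Bool} : c ∈ S κ A ↔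
    ∀ Z : Finset ι, Z.card ≤ κ → ∃ a ∈ A, a ≠ c ∧ ∀ i ∈ Z, a i = c i := by
  simp [S]

theorem S_mono {κ : ℕ} {A B : Finset (ι → Bool)} (h : A ⊆ B) : S κ A ⊆ S κ B := by
  intro c hc
  rw [mem_S] at hc ⊢
  intro Z hZ
  obtain ⟨a, ha, h1⟩ := hc Z hZ
  exact ⟨a, h ha, h1⟩

theorem S_anti {κ κ' : ℕ} (h : κ ≤ κ') (A : Finset (ι → Bool)) : S κ' A ⊆ S κ A := by
  intro c hc
  rw [mem_S] at hc ⊢
  exact fun Z hZ => hc Z (hZ.trans h)

theorem exists_ne {a b : ι → Bool} (h : a ≠ b) : ∃ z, a z ≠ b z := by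
  by_contra hcon
  push Not at hcon
  exact h (funext hcon)

theorem S_S {κ : ℕ} (A : Finset (ι → Bool)) : S (κ + 1) (S (κ + 1) A) ⊆ S κ A := by
  intro c hc
  rw [mem_S]
  intro Z hZ
  obtain ⟨b, hb, hbc, hbZ⟩ := mem_S.1 hc Z (hZ.trans (Nat.le_succ _))
  obtain ⟨z, hz⟩ := exists_ne hbc
  obtain ⟨a, ha, hab, haZ⟩ := mem_S.1 hb (insert z Z) ((Finset.card_insert_le _ _).trans
    (Nat.succ_le_succ hZ))
  refine ⟨a, ha, ?_, fun i hi => ?_⟩
  · rintro rfl
    exact hz (haZ z (Finset.mem_insert_self _ _)).symm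
  · rw [haZ i (Finset.mem_insert_of_mem hi), hbZ i hi]

theorem mem_S_erase {κ : ℕ} {A : Finset (ι → Bool)} {c : ι → Bool} :
    c ∈ S κ (A.erase c) ↔ c ∈ S κ A := by
  refine ⟨fun h => S_mono (Finset.erase_subset _ _) h, fun h => ?_⟩
  rw [mem_S] at h ⊢
  intro Z hZ
  obtain ⟨a, ha, h1, h2⟩ := h Z hZ
  exact ⟨a, Finset.mem_erase.2 ⟨h1, ha⟩, h1, h2⟩

theorem mem_S_insert {κ : ℕ} {A : Finset (ι → Bool)} {c : ι → Bool} :
    c ∈ S κ (insert c A) ↔ c ∈ S κ A := by
  refine ⟨fun h => ?_, fun h => S_mono (Finset.subset_insert _ _) h⟩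
  rw [mem_S] at h ⊢
  intro Z hZ
  obtain ⟨a, ha, h1, h2⟩ := h Z hZ
  exact ⟨a, (Finset.mem_insert.1 ha).resolve_left h1, h1, h2⟩

theorem S_insert_subset {κ : ℕ} {A : Finset (ι → Bool)} {c : ι → Bool} (hc : c ∈ S (κ + 1) A) :
    S κ (insert c A) ⊆ S κ (A.erase c) := by
  intro b hb
  rw [mem_S] at hb ⊢
  intro Z hZ
  obtain ⟨a, ha, hab, haZ⟩ := hb Z hZ
  by_cases hac : a = c
  · subst hac
    obtain ⟨z, hz⟩ := exists_ne hab
    obtain ⟨a', ha', h1, h2⟩ := mem_S.1 hc (insert z Z) ((Finset.card_insert_le _ _).trans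
      (Nat.succ_le_succ hZ))
    refine ⟨a', Finset.mem_erase.2 ⟨h1, ha'⟩, ?_, fun i hi => ?_⟩
    · rintro rfl
      exact hz (h2 z (Finset.mem_insert_self _ _)).symm
    · rw [h2 i (Finset.mem_insert_of_mem hi), haZ i hi]
  · exact ⟨a, Finset.mem_erase.2 ⟨hac, (Finset.mem_insert.1 ha).resolve_left hac⟩, hab, haZ⟩

theorem S_erase_eq {κ κ' : ℕ} {A : Finset (ι → Bool)} {c : ι → Bool} (hc : c ∈ S κ' A)
    (h : κ < κ') : S κ (A.erase c) = S κ A := by
  apply Finset.Subset.antisymm (S_mono (Finset.erase_subset _ _))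
  exact (S_mono (Finset.subset_insert c A)).trans (S_insert_subset (S_anti h A hc))

theorem S_insert_eq {κ κ' : ℕ} {A : Finset (ι → Bool)} {c : ι → Bool} (hc : c ∈ S κ' A)
    (h : κ < κ') : S κ (insert c A) = S κ A := by
  refine Finset.Subset.antisymm ?_ (S_mono (Finset.subset_insert _ _))
  exact (S_insert_subset (S_anti h A hc)).trans (S_mono (Finset.erase_subset _ _))

/-- The distance to a centre. -/
theorem dist_center {κ m : ℕ} {A : Finset (ι → Bool)} {b c : ι → Bool}
    (hA : ∀ a ∈ A, hammingDist a b ≤ m) (hκ : m + 1 ≤ κ) (hc : c ∈ S κ A) :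
    hammingDist c b + 1 ≤ m := by
  by_contra hcon
  set D := Finset.univ.filter fun i => c i ≠ b i with hD
  have hDc : hammingDist c b = D.card := rfl
  have key : ∀ (a : ι → Bool) (Z : Finset ι), Z ⊆ D → (∀ i ∈ Z, a i = c i) →
      Z ⊆ Finset.univ.filter fun i => a i ≠ b i := by
    intro a Z hZ h i hi
    have := (Finset.mem_filter.1 (hZ hi)).2
    exact Finset.mem_filter.2 ⟨Finset.mem_univ _, by rw [h i hi]; exact this⟩
  rcases Nat.lt_or_ge m D.card with h | h
  · obtain ⟨Z, hZ, hZc⟩ := Finset.exists_subset_card_eq (show m + 1 ≤ D.card by omega)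
    obtain ⟨a, ha, -, haZ⟩ := mem_S.1 hc Z (by omega)
    have h1 := Finset.card_le_card (key a Z hZ haZ)
    have h2 : (Finset.univ.filter fun i => a i ≠ b i).card ≤ m := hA a ha
    omega
  · have hm : D.card = m := by omega
    obtain ⟨a, ha, hac, haZ⟩ := mem_S.1 hc D (by omega)
    have h2 : (Finset.univ.filter fun i => a i ≠ b i).card ≤ m := hA a ha
    have h3 := Finset.eq_of_subset_of_card_le (key a D le_rfl haZ) (by omega)
    apply hac
    funext i
    by_cases hi : i ∈ D
    · exact haZ i hi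
    · have h4 : ¬ a i ≠ b i := by
        intro h5
        apply hi
        rw [h3]
        exact Finset.mem_filter.2 ⟨Finset.mem_univ _, h5⟩
      have h5 : ¬ c i ≠ b i := by
        intro h5
        exact hi (Finset.mem_filter.2 ⟨Finset.mem_univ _, h5⟩)
      push Not at h4 h5
      rw [h4, h5]

theorem dist_S {κ r : ℕ} {A : Finset (ι → Bool)}
    (hA : ∀ a ∈ A, ∀ b ∈ A, hammingDist a b ≤ r) (hκ : r + 1 ≤ κ) {c b : ι → Bool}
    (hc : c ∈ S κ A) (hb : b ∈ A) : hammingDist c b + 1 ≤ r :=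
  dist_center (fun a ha => hA a ha b hb) hκ hc

theorem dist_S_S {κ r : ℕ} {A : Finset (ι → Bool)}
    (hA : ∀ a ∈ A, ∀ b ∈ A, hammingDist a b ≤ r) (hκ : r + 1 ≤ κ) {c c' : ι → Bool}
    (hc : c ∈ S κ A) (hc' : c' ∈ S κ A) : hammingDist c c' + 2 ≤ r := by
  obtain ⟨a, ha, -⟩ := mem_S.1 hc ∅ (by simp)
  have h0 := dist_S hA hκ hc ha
  have h1 : ∀ a ∈ A, hammingDist a c' ≤ r - 1 := by
    intro a ha
    have := dist_S hA hκ hc' ha
    rw [hammingDist_comm] at this
    omega
  have h2 := dist_center h1 (by omega) hc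
  omega

/-- Flip one coordinate. -/
def flip (i : ι) (c : ι → Bool) : ι → Bool := Function.update c i (!c i)

theorem dist_flip {i : ι} {a c : ι → Bool} (h : a i ≠ c i) :
    hammingDist a (flip i c) + 1 = hammingDist a c := by
  have h1 : (Finset.univ.filter fun j => a j ≠ c j) =
      insert i (Finset.univ.filter fun j => a j ≠ flip i c j) := by
    ext j
    rw [Finset.mem_insert, Finset.mem_filter, Finset.mem_filter]
    by_cases hj : j = i
    · subst hj
      simp [h]
    · simp [flip, Function.update_of_ne hj, hj]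
  have h2 : i ∉ Finset.univ.filter fun j => a j ≠ flip i c j := by
    rw [Finset.mem_filter]
    push Not
    intro _
    simp only [flip, Function.update_self]
    cases h3 : a i <;> cases h4 : c i <;> simp_all
  show (Finset.univ.filter fun j => a j ≠ flip i c j).card + 1 =
    (Finset.univ.filter fun j => a j ≠ c j).card
  rw [h1, Finset.card_insert_of_notMem h2]

/-- A family without centres is small and varies in few coordinates. -/
theorem bound {κ : ℕ} {A : Finset (ι → Bool)} (h : S κ A = ∅) : ∀ (m : ℕ) (c : ι → Bool),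
    (A.filter fun a => hammingDist a c ≤ m).card ≤ (κ + 1) ^ m ∧
    (Finset.univ.filter fun i => ∃ a ∈ A, hammingDist a c ≤ m ∧ a i ≠ c i).card + 1 ≤
      (κ + 1) ^ m := by
  have hZ : ∀ c : ι → Bool, ∃ Z : Finset ι, Z.card ≤ κ ∧ ∀ a ∈ A, a ≠ c → ∃ i ∈ Z, a i ≠ c i := by
    intro c
    have h1 : c ∉ S κ A := by rw [h]; exact Finset.notMem_empty _
    rw [mem_S] at h1
    push Not at h1
    exact h1
  intro m
  induction m with
  | zero =>
    intro c
    constructor
    · rw [pow_zero]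
      refine (Finset.card_le_card (t := {c}) ?_).trans (by simp)
      intro a ha
      have := (Finset.mem_filter.1 ha).2
      rw [Finset.mem_singleton]
      exact hammingDist_eq_zero.1 (Nat.le_zero.1 this)
    · have h0 : (Finset.univ.filter fun i => ∃ a ∈ A, hammingDist a c ≤ 0 ∧ a i ≠ c i) = ∅ := by
        apply Finset.filter_eq_empty_iff.2
        rintro i _ ⟨a, -, ha, hi⟩
        rw [hammingDist_eq_zero.1 (Nat.le_zero.1 ha)] at hi
        exact hi rfl
      rw [h0]
      simp
  | succ m ih =>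
    intro c
    obtain ⟨Z, hZc, hZ⟩ := hZ c
    have hpow : (κ + 1) ^ (m + 1) = κ * (κ + 1) ^ m + (κ + 1) ^ m := by ring
    have hpos : 1 ≤ (κ + 1) ^ m := Nat.one_le_pow _ _ (Nat.succ_pos _)
    have hcase : ∀ a ∈ A, hammingDist a c ≤ m + 1 → a ≠ c →
        ∃ i ∈ Z, a i ≠ c i ∧ hammingDist a (flip i c) ≤ m := by
      intro a ha hd hac
      obtain ⟨i, hi, hne⟩ := hZ a ha hac
      have := dist_flip hne
      exact ⟨i, hi, hne, by omega⟩
    constructor
    · have hsub : (A.filter fun a => hammingDist a c ≤ m + 1) ⊆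
          insert c (Z.biUnion fun i => A.filter fun a => hammingDist a (flip i c) ≤ m) := by
        intro a ha
        rw [Finset.mem_filter] at ha
        rw [Finset.mem_insert, Finset.mem_biUnion]
        by_cases hac : a = c
        · exact Or.inl hac
        · obtain ⟨i, hi, -, h2⟩ := hcase a ha.1 ha.2 hac
          exact Or.inr ⟨i, hi, Finset.mem_filter.2 ⟨ha.1, h2⟩⟩
      refine (Finset.card_le_card hsub).trans ((Finset.card_insert_le _ _).trans ?_)
      have h1 : (Z.biUnion fun i => A.filter fun a => hammingDist a (flip i c) ≤ m).card ≤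
          κ * (κ + 1) ^ m := by
        refine Finset.card_biUnion_le.trans ((Finset.sum_le_card_nsmul _ _ _ fun i _ =>
          (ih (flip i c)).1).trans ?_)
        rw [smul_eq_mul]
        exact Nat.mul_le_mul_right _ hZc
      omega
    · have hsub : (Finset.univ.filter fun j => ∃ a ∈ A, hammingDist a c ≤ m + 1 ∧ a j ≠ c j) ⊆
          Z ∪ Z.biUnion fun i => Finset.univ.filter fun j => ∃ a ∈ A,
            hammingDist a (flip i c) ≤ m ∧ a j ≠ flip i c j := by
        intro j hj
        obtain ⟨a, ha, hd, hne⟩ := (Finset.mem_filter.1 hj).2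
        have hac : a ≠ c := fun h => hne (by rw [h])
        obtain ⟨i, hi, -, h2⟩ := hcase a ha hd hac
        rw [Finset.mem_union, Finset.mem_biUnion]
        by_cases hji : j = i
        · left; rw [hji]; exact hi
        · right
          refine ⟨i, hi, Finset.mem_filter.2 ⟨Finset.mem_univ _, a, ha, h2, ?_⟩⟩
          rw [flip, Function.update_of_ne hji]
          exact hne
      have h1 : (Z ∪ Z.biUnion fun i => Finset.univ.filter fun j => ∃ a ∈ A,
            hammingDist a (flip i c) ≤ m ∧ a j ≠ flip i c j).card ≤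
          κ + κ * ((κ + 1) ^ m - 1) := by
        refine (Finset.card_union_le _ _).trans (Nat.add_le_add hZc ?_)
        refine Finset.card_biUnion_le.trans ((Finset.sum_le_card_nsmul _ _ ((κ + 1) ^ m - 1)
          fun i _ => ?_).trans ?_)
        · have := (ih (flip i c)).2
          omega
        · rw [smul_eq_mul]
          exact Nat.mul_le_mul_right _ hZc
      have h2 := (Finset.card_le_card hsub).trans h1
      have h3 : κ + κ * ((κ + 1) ^ m - 1) = κ * (κ + 1) ^ m := by
        obtain ⟨t, ht⟩ := Nat.exists_eq_add_of_le hpos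
        rw [ht, Nat.add_sub_cancel_left]
        ring
      omega

end Q181.Cubic
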