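import Mathlib

/-! Simplicial chains supported on a convex set of simplices, and a matching criterion for
exactness. -/

set_option autoImplicit false

namespace Q181.Cubic

open Finset

variable {V : Type*} [Fintype V] [DecidableEq V] {R : Type*} [CommRing R]

/-- The incidence sign of the face `σ` of `σ ∪ {x}`: `-1` to the number of vertices of `σ` that
precede `x`. -/
def sgn (R : Type*) [CommRing R] (pos : V → ℕ) (x : V) (σ : Finset V) : R :=
  (-1) ^ (σ.filter fun y => pos y < pos x).card

open Classical in
/-- The boundary of a chain, restricted to the simplices in `P`: the coefficient of `σ` is the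
sum of the coefficients of the simplices `σ ∪ {x}` with their incidence signs. -/
noncomputable def bd (pos : V → ℕ) (P : Finset V → Prop) (f : Finset V → R) : Finset V → R :=
  fun σ => if P σ then ∑ x ∈ Finset.univ \ σ, sgn R pos x σ * f (insert x σ) else 0

/-- Chains of degree `d`: functions on the simplices in `P` with `d + 1` vertices, extended by
zero. -/
def IsCh (P : Finset V → Prop) (d : ℕ) (f : Finset V → R) : Prop :=
  ∀ σ, f σ ≠ 0 → P σ ∧ σ.card = d + 1

variable {pos : V → ℕ}

theorem sgn_sq (x : V) (σ : Finset V) : sgn R pos x σ * sgn R pos x σ = 1 := by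
  rw [sgn, ← mul_pow, neg_one_mul, neg_neg, one_pow]

theorem sgn_insert_of_lt {x y : V} {σ : Finset V} (hy : y ∉ σ) (h : pos y < pos x) :
    sgn R pos x (insert y σ) = - sgn R pos x σ := by
  have h1 : (insert y σ).filter (fun z => pos z < pos x) =
      insert y (σ.filter fun z => pos z < pos x) := by
    rw [Finset.filter_insert, if_pos h]
  rw [sgn, sgn, h1, Finset.card_insert_of_notMem fun h => hy (Finset.mem_filter.1 h).1, pow_succ]
  ring

theorem sgn_insert_of_not_lt {x y : V} {σ : Finset V} (h : ¬ pos y < pos x) :
    sgn R pos x (insert y σ) = sgn R pos x σ := by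
  rw [sgn, sgn, Finset.filter_insert, if_neg h]

theorem sgn_comm (hpos : Function.Injective pos) {x y : V} {σ : Finset V} (hxy : x ≠ y)
    (hx : x ∉ σ) (hy : y ∉ σ) :
    sgn R pos x (insert y σ) * sgn R pos y σ = - (sgn R pos y (insert x σ) * sgn R pos x σ) := by
  rcases lt_trichotomy (pos x) (pos y) with h | h | h
  · rw [sgn_insert_of_not_lt (not_lt.2 h.le), sgn_insert_of_lt hx h]
    ring
  · exact absurd (hpos h) hxy
  · rw [sgn_insert_of_lt hy h, sgn_insert_of_not_lt (not_lt.2 h.le)]
    ring

theorem bd_apply (P : Finset V → Prop) (f : Finset V → R) {σ : Finset V} (h : P σ) :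
    bd pos P f σ = ∑ x ∈ Finset.univ \ σ, sgn R pos x σ * f (insert x σ) := by
  rw [bd, if_pos h]

theorem bd_of_not (P : Finset V → Prop) (f : Finset V → R) {σ : Finset V} (h : ¬ P σ) :
    bd pos P f σ = 0 := by
  rw [bd, if_neg h]

theorem bd_sub (P : Finset V → Prop) (f g : Finset V → R) :
    bd pos P (f - g) = bd pos P f - bd pos P g := by
  funext σ
  by_cases h : P σ
  · rw [Pi.sub_apply, bd_apply P _ h, bd_apply P _ h, bd_apply P _ h, ← Finset.sum_sub_distrib]
    refine Finset.sum_congr rfl fun x _ => ?_
    rw [Pi.sub_apply]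
    ring
  · rw [Pi.sub_apply, bd_of_not P _ h, bd_of_not P _ h, bd_of_not P _ h, sub_zero]

theorem bd_add (P : Finset V → Prop) (f g : Finset V → R) :
    bd pos P (f + g) = bd pos P f + bd pos P g := by
  funext σ
  by_cases h : P σ
  · rw [Pi.add_apply, bd_apply P _ h, bd_apply P _ h, bd_apply P _ h, ← Finset.sum_add_distrib]
    refine Finset.sum_congr rfl fun x _ => ?_
    rw [Pi.add_apply]
    ring
  · rw [Pi.add_apply, bd_of_not P _ h, bd_of_not P _ h, bd_of_not P _ h, add_zero]

theorem bd_zero (P : Finset V → Prop) : bd pos P (0 : Finset V → R) = 0 := by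
  funext σ
  by_cases h : P σ
  · rw [bd_apply P _ h]
    simp
  · rw [bd_of_not P _ h]
    rfl

theorem IsCh.bd {P : Finset V → Prop} {d : ℕ} {f : Finset V → R} (hf : IsCh P (d + 1) f) :
    IsCh P d (bd pos P f) := by
  intro σ hσ
  by_cases h : P σ
  · refine ⟨h, ?_⟩
    rw [bd_apply P _ h] at hσ
    obtain ⟨x, hx, hne⟩ := Finset.exists_ne_zero_of_sum_ne_zero hσ
    have h1 := (hf _ (right_ne_zero_of_mul hne)).2
    rw [Finset.card_insert_of_notMem (Finset.mem_sdiff.1 hx).2] at h1
    omega
  · exact absurd (bd_of_not P _ h) hσ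

/-- The boundary of a boundary vanishes. -/
theorem bd_bd (hpos : Function.Injective pos) (P : Finset V → Prop)
    (hconv : ∀ σ ρ τ, P σ → P τ → σ ⊆ ρ → ρ ⊆ τ → P ρ) (f : Finset V → R)
    (hf : ∀ σ, f σ ≠ 0 → P σ) : bd pos P (bd pos P f) = 0 := by
  funext σ
  by_cases h : P σ
  swap
  · rw [bd_of_not P _ h]; rfl
  rw [bd_apply P _ h]
  have h1 : ∀ x ∈ Finset.univ \ σ, sgn R pos x σ * bd pos P f (insert x σ) =
      ∑ y ∈ Finset.univ \ (insert x σ),
        sgn R pos x σ * (sgn R pos y (insert x σ) * f (insert y (insert x σ))) := by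
    intro x _
    rw [← Finset.mul_sum]
    by_cases hx : P (insert x σ)
    · rw [bd_apply P _ hx]
    · rw [bd_of_not P _ hx]
      congr 1
      symm
      refine Finset.sum_eq_zero fun y _ => ?_
      have : f (insert y (insert x σ)) = 0 := by
        by_contra hne
        exact hx (hconv σ _ _ h (hf _ hne) (Finset.subset_insert _ _)
          (Finset.subset_insert _ _))
      rw [this, mul_zero]
  rw [Finset.sum_congr rfl h1, Finset.sum_sigma']
  refine Finset.sum_involution (fun p _ => ⟨p.2, p.1⟩) ?_ ?_ ?_ ?_
  · rintro ⟨x, y⟩ hp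
    rw [Finset.mem_sigma, Finset.mem_sdiff, Finset.mem_sdiff, Finset.mem_insert] at hp
    obtain ⟨⟨_, hx⟩, ⟨_, hy⟩⟩ := hp
    simp only at hx hy ⊢
    push Not at hy
    rw [Finset.insert_comm y x σ]
    have h2 := sgn_comm (R := R) (pos := pos) hpos hy.1 hy.2 hx
    have h3 : sgn R pos x σ * (sgn R pos y (insert x σ) * f (insert x (insert y σ))) +
        sgn R pos y σ * (sgn R pos x (insert y σ) * f (insert x (insert y σ))) =
        (sgn R pos y (insert x σ) * sgn R pos x σ + sgn R pos x (insert y σ) * sgn R pos y σ) *
          f (insert x (insert y σ)) := by ring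
    rw [h3, h2]
    ring
  · rintro ⟨x, y⟩ hp hne heq
    rw [Finset.mem_sigma, Finset.mem_sdiff, Finset.mem_sdiff, Finset.mem_insert] at hp
    obtain ⟨⟨_, hx⟩, ⟨_, hy⟩⟩ := hp
    simp only [Sigma.mk.injEq] at heq
    push Not at hy
    exact hy.1 heq.1
  · rintro ⟨x, y⟩ hp
    rw [Finset.mem_sigma, Finset.mem_sdiff, Finset.mem_sdiff, Finset.mem_insert] at hp ⊢
    obtain ⟨⟨_, hx⟩, ⟨_, hy⟩⟩ := hp
    simp only at hx hy ⊢
    push Not at hy
    refine ⟨⟨Finset.mem_univ _, hy.2⟩, ⟨Finset.mem_univ _, ?_⟩⟩
    rintro (h2 | h2)
    · exact hy.1 h2.symm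
    · exact hx h2
  · rintro ⟨x, y⟩ _
    rfl

/-- A matching by toggling a canonical vertex makes the chain complex exact. -/
theorem exact_of_matching (hpos : Function.Injective pos) (P : Finset V → Prop)
    (hconv : ∀ σ ρ τ, P σ → P τ → σ ⊆ ρ → ρ ⊆ τ → P ρ) (c : Finset V → V)
    {K : Type*} [LinearOrder K] (key : Finset V → K)
    (hins : ∀ σ, P σ → P (insert (c σ) σ) ∧ c (insert (c σ) σ) = c σ ∧
      key (insert (c σ) σ) = key σ)
    (hera : ∀ σ, P σ → P (σ.erase (c σ)) ∧ c (σ.erase (c σ)) = c σ ∧
      key (σ.erase (c σ)) = key σ)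
    (hmono : ∀ σ τ, P σ → P τ → σ ⊆ τ → key σ ≤ key τ)
    (hceq : ∀ σ τ, P σ → P τ → σ ⊆ τ → key σ = key τ → c σ = c τ) (d : ℕ) :
    ∀ f : Finset V → R, IsCh P d f → bd pos P f = 0 →
      ∃ g : Finset V → R, IsCh P (d + 1) g ∧ bd pos P g = f := by
  classical
  have main : ∀ (n : ℕ) (f : Finset V → R), IsCh P d f → bd pos P f = 0 →
      (Finset.univ.filter fun σ => P σ ∧ ∃ ρ, f ρ ≠ 0 ∧ key σ ≤ key ρ).card ≤ n →
      ∃ g : Finset V → R, IsCh P (d + 1) g ∧ bd pos P g = f := by
    intro n
    induction n with
    | zero =>
      intro f hf _ hn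
      have h0 : f = 0 := by
        funext σ
        by_contra hσ
        have h1 : σ ∈ Finset.univ.filter fun σ => P σ ∧ ∃ ρ, f ρ ≠ 0 ∧ key σ ≤ key ρ :=
          Finset.mem_filter.2 ⟨Finset.mem_univ _, (hf σ hσ).1, σ, hσ, le_rfl⟩
        have := Finset.card_pos.2 ⟨σ, h1⟩
        omega
      subst h0
      exact ⟨0, fun σ h => absurd rfl h, bd_zero P⟩
    | succ n ih =>
      intro f hf hbd hn
      by_cases h0 : f = 0
      · subst h0
        exact ⟨0, fun σ h => absurd rfl h, bd_zero P⟩
      obtain ⟨ρ₁, hρ₁⟩ : ∃ ρ, f ρ ≠ 0 := by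
        by_contra hcon
        push Not at hcon
        exact h0 (funext hcon)
      obtain ⟨ρ₀, hρ₀, hmax⟩ := (Finset.univ.filter fun ρ => f ρ ≠ 0).exists_max_image key
        ⟨ρ₁, Finset.mem_filter.2 ⟨Finset.mem_univ _, hρ₁⟩⟩
      have hρ₀' := (Finset.mem_filter.1 hρ₀).2
      have hmax' : ∀ ρ, f ρ ≠ 0 → key ρ ≤ key ρ₀ := fun ρ h =>
        hmax ρ (Finset.mem_filter.2 ⟨Finset.mem_univ _, h⟩)
      set k := key ρ₀ with hk
      let g₀ : Finset V → R := fun τ => if P τ ∧ key τ = k ∧ c τ ∈ τ then
        sgn R pos (c τ) (τ.erase (c τ)) * f (τ.erase (c τ)) else 0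
      have hg₀ne : ∀ τ, g₀ τ ≠ 0 → P τ ∧ key τ = k ∧ c τ ∈ τ ∧ f (τ.erase (c τ)) ≠ 0 := by
        intro τ hτ
        by_cases h : P τ ∧ key τ = k ∧ c τ ∈ τ
        · simp only [g₀, if_pos h] at hτ
          exact ⟨h.1, h.2.1, h.2.2, right_ne_zero_of_mul hτ⟩
        · simp only [g₀, if_neg h] at hτ
          exact absurd rfl hτ
      have hg₀ch : IsCh P (d + 1) g₀ := by
        intro τ hτ
        obtain ⟨h1, -, h2, h3⟩ := hg₀ne τ hτ
        refine ⟨h1, ?_⟩
        have h4 := (hf _ h3).2
        rw [Finset.card_erase_of_mem h2] at h4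
        omega
      -- the boundary of `g₀` agrees with `f` on the simplices with key at least `k`
      have hagree : ∀ σ, P σ → k ≤ key σ → bd pos P g₀ σ = f σ := by
        intro σ hσ hkσ
        rcases hkσ.lt_or_eq with hlt | heq
        · have hfσ : f σ = 0 := by
            by_contra h
            exact absurd (hmax' σ h) (not_le.2 hlt)
          rw [hfσ, bd_apply P _ hσ]
          refine Finset.sum_eq_zero fun x _ => ?_
          have : g₀ (insert x σ) = 0 := by
            by_contra h
            obtain ⟨h1, h2, -⟩ := hg₀ne _ h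
            have := hmono σ _ hσ h1 (Finset.subset_insert _ _)
            rw [h2] at this
            exact absurd this (not_le.2 hlt)
          rw [this, mul_zero]
        · rw [bd_apply P _ hσ]
          by_cases hcσ : c σ ∈ σ
          · -- the canonical vertex belongs to `σ`
            obtain ⟨hP', hc', hkey'⟩ := hera σ hσ
            set σ' := σ.erase (c σ) with hσ'
            have hins' : insert (c σ) σ' = σ := Finset.insert_erase hcσ
            have hval : ∀ x ∈ Finset.univ \ σ, g₀ (insert x σ) =
                sgn R pos (c σ) (insert x σ') * f (insert x σ') := by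
              intro x hx
              have hxσ : x ∉ σ := (Finset.mem_sdiff.1 hx).2
              have hxc : x ≠ c σ := fun h => hxσ (h ▸ hcσ)
              have hcx : c σ ∉ insert x σ' := by
                rw [Finset.mem_insert]
                push Not
                exact ⟨hxc.symm, Finset.notMem_erase _ _⟩
              have hins2 : insert (c σ) (insert x σ') = insert x σ := by
                rw [Finset.insert_comm, hins']
              by_cases h : P (insert x σ) ∧ key (insert x σ) = k
              · have hcc : c (insert x σ) = c σ :=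
                  (hceq σ _ hσ h.1 (Finset.subset_insert _ _) (heq.symm.trans h.2.symm)).symm
                have h1 : P (insert x σ) ∧ key (insert x σ) = k ∧ c (insert x σ) ∈ insert x σ :=
                  ⟨h.1, h.2, by rw [hcc]; exact Finset.mem_insert_of_mem hcσ⟩
                have herase : (insert x σ).erase (c σ) = insert x σ' := by
                  rw [← hins2, Finset.erase_insert hcx]
                simp only [g₀, if_pos h1]
                rw [hcc, herase]
              · have h1 : ¬ (P (insert x σ) ∧ key (insert x σ) = k ∧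
                    c (insert x σ) ∈ insert x σ) := fun h2 => h ⟨h2.1, h2.2.1⟩
                have h2 : f (insert x σ') = 0 := by
                  by_contra hne
                  have hPx := (hf _ hne).1
                  have h3 := hmono σ' _ hP' hPx (Finset.subset_insert _ _)
                  rw [hkey', ← heq] at h3
                  have h4 : key (insert x σ') = k := le_antisymm (hmax' _ hne) h3
                  have h5 : c (insert x σ') = c σ := by
                    rw [← hc']
                    exact (hceq σ' _ hP' hPx (Finset.subset_insert _ _)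
                      (hkey'.trans (heq.symm.trans h4.symm))).symm
                  obtain ⟨h6, -, h7⟩ := hins _ hPx
                  rw [h5, hins2] at h6 h7
                  exact h ⟨h6, h7.trans h4⟩
                simp only [g₀, if_neg h1]
                rw [h2, mul_zero]
            have hsum : ∑ x ∈ Finset.univ \ σ', sgn R pos x σ' * f (insert x σ') = 0 := by
              have := congrFun hbd σ'
              rwa [bd_apply P _ hP'] at this
            have hsplit : Finset.univ \ σ' = insert (c σ) (Finset.univ \ σ) := by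
              ext x
              simp only [hσ', Finset.mem_sdiff, Finset.mem_univ, true_and, Finset.mem_erase,
                Finset.mem_insert]
              tauto
            rw [hsplit, Finset.sum_insert (fun h => (Finset.mem_sdiff.1 h).2 hcσ), hins'] at hsum
            have hterm : ∀ x ∈ Finset.univ \ σ, sgn R pos x σ * g₀ (insert x σ) =
                - sgn R pos (c σ) σ' * (sgn R pos x σ' * f (insert x σ')) := by
              intro x hx
              have hxσ : x ∉ σ := (Finset.mem_sdiff.1 hx).2
              have hxc : x ≠ c σ := fun h => hxσ (h ▸ hcσ)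
              have hxσ' : x ∉ σ' := fun h => hxσ (Finset.mem_of_mem_erase h)
              rw [hval x hx]
              have h1 := sgn_comm (R := R) (pos := pos) hpos hxc hxσ' (Finset.notMem_erase (c σ) σ)
              rw [hins'] at h1
              have h2 := sgn_sq (R := R) (pos := pos) (c σ) (insert x σ')
              have h3 := sgn_sq (R := R) (pos := pos) (c σ) σ'
              -- `h1 : s_x(σ) s_c(σ') = - s_c(σ' ∪ x) s_x(σ')`
              have h4 : sgn R pos x σ = - (sgn R pos (c σ) (insert x σ') * sgn R pos x σ' *
                  sgn R pos (c σ) σ') := by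
                calc sgn R pos x σ = sgn R pos x σ * (sgn R pos (c σ) σ' * sgn R pos (c σ) σ') := by
                      rw [h3, mul_one]
                  _ = (sgn R pos x σ * sgn R pos (c σ) σ') * sgn R pos (c σ) σ' := by ring
                  _ = _ := by rw [h1]; ring
              rw [h4]
              calc -(sgn R pos (c σ) (insert x σ') * sgn R pos x σ' * sgn R pos (c σ) σ') *
                    (sgn R pos (c σ) (insert x σ') * f (insert x σ')) =
                  (sgn R pos (c σ) (insert x σ') * sgn R pos (c σ) (insert x σ')) *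
                    (-(sgn R pos x σ' * sgn R pos (c σ) σ' * f (insert x σ'))) := by ring
                _ = _ := by rw [h2]; ring
            rw [Finset.sum_congr rfl hterm, ← Finset.mul_sum]
            have h5 : ∑ x ∈ Finset.univ \ σ, sgn R pos x σ' * f (insert x σ') =
                - (sgn R pos (c σ) σ' * f σ) := by
              rw [eq_neg_iff_add_eq_zero, add_comm]
              exact hsum
            rw [h5]
            have h3 := sgn_sq (R := R) (pos := pos) (c σ) σ'
            calc -sgn R pos (c σ) σ' * -(sgn R pos (c σ) σ' * f σ) =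
                (sgn R pos (c σ) σ' * sgn R pos (c σ) σ') * f σ := by ring
              _ = f σ := by rw [h3, one_mul]
          · -- the canonical vertex does not belong to `σ`
            obtain ⟨hP', hc', hkey'⟩ := hins σ hσ
            rw [Finset.sum_eq_single (c σ)]
            · have h1 : P (insert (c σ) σ) ∧ key (insert (c σ) σ) = k ∧
                  c (insert (c σ) σ) ∈ insert (c σ) σ :=
                ⟨hP', hkey'.trans heq.symm, by rw [hc']; exact Finset.mem_insert_self _ _⟩
              simp only [g₀, if_pos h1]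
              rw [hc', Finset.erase_insert hcσ, ← mul_assoc, sgn_sq, one_mul]
            · intro x hx hxc
              have : g₀ (insert x σ) = 0 := by
                by_contra h
                obtain ⟨h1, h2, h3, -⟩ := hg₀ne _ h
                have hcc : c (insert x σ) = c σ :=
                  (hceq σ _ hσ h1 (Finset.subset_insert _ _) (heq.symm.trans h2.symm)).symm
                rw [hcc, Finset.mem_insert] at h3
                rcases h3 with h3 | h3
                · exact hxc h3.symm
                · exact hcσ h3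
              rw [this, mul_zero]
            · intro h
              exact absurd (Finset.mem_sdiff.2 ⟨Finset.mem_univ _, hcσ⟩) h
      -- the remainder
      set f' : Finset V → R := f - bd pos P g₀ with hf'
      have hf'ne : ∀ σ, f' σ ≠ 0 → P σ ∧ σ.card = d + 1 ∧ key σ < k := by
        intro σ hσ
        have h1 : P σ ∧ σ.card = d + 1 := by
          by_cases h : f σ = 0
          · have h2 : bd pos P g₀ σ ≠ 0 := by
              intro h3
              apply hσ
              rw [hf', Pi.sub_apply, h, h3, sub_zero]
            exact hg₀ch.bd σ h2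
          · exact hf σ h
        refine ⟨h1.1, h1.2, ?_⟩
        by_contra hcon
        apply hσ
        rw [hf', Pi.sub_apply, hagree σ h1.1 (not_lt.1 hcon), sub_self]
      have hf'ch : IsCh P d f' := fun σ hσ => ⟨(hf'ne σ hσ).1, (hf'ne σ hσ).2.1⟩
      have hf'bd : bd pos P f' = 0 := by
        rw [hf', bd_sub, hbd, bd_bd hpos P hconv g₀ fun σ h => (hg₀ne σ h).1, sub_zero]
      obtain ⟨g', hg'ch, hg'⟩ := ih f' hf'ch hf'bd (by
        have hss : (Finset.univ.filter fun σ => P σ ∧ ∃ ρ, f' ρ ≠ 0 ∧ key σ ≤ key ρ) ⊂
            (Finset.univ.filter fun σ => P σ ∧ ∃ ρ, f ρ ≠ 0 ∧ key σ ≤ key ρ) := by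
          refine Finset.ssubset_iff_subset_ne.2 ⟨?_, ?_⟩
          · intro σ hσ
            obtain ⟨h1, ρ, h2, h3⟩ := (Finset.mem_filter.1 hσ).2
            exact Finset.mem_filter.2 ⟨Finset.mem_univ _, h1, ρ₀, hρ₀',
              h3.trans (hf'ne ρ h2).2.2.le⟩
          · intro heq
            have h1 : ρ₀ ∈ Finset.univ.filter fun σ => P σ ∧ ∃ ρ, f ρ ≠ 0 ∧ key σ ≤ key ρ :=
              Finset.mem_filter.2 ⟨Finset.mem_univ _, (hf _ hρ₀').1, ρ₀, hρ₀', le_rfl⟩
            rw [← heq] at h1
            obtain ⟨-, ρ, h2, h3⟩ := (Finset.mem_filter.1 h1).2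
            exact absurd h3 (not_le.2 (hf'ne ρ h2).2.2)
        have := Finset.card_lt_card hss
        omega)
      refine ⟨g₀ + g', ?_, ?_⟩
      · intro σ hσ
        by_cases h : g₀ σ = 0
        · have : g' σ ≠ 0 := by
            intro h2
            apply hσ
            rw [Pi.add_apply, h, h2, add_zero]
          exact hg'ch σ this
        · exact hg₀ch σ h
      · rw [bd_add, hg', hf']
        exact add_sub_cancel _ _
  intro f hf hbd
  exact main _ f hf hbd le_rfl

end Q181.Cubic
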