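import Pool.Agent.Q181.Cubic.Key

/-! The spectral sequence of the cubic-dimension filtration degenerates at a page depending only
on the scale. -/

set_option autoImplicit false

namespace Q181.Cubic

open Finset

variable {ι : Type*} [Fintype ι] [DecidableEq ι] {R : Type*} [CommRing R]

/-- The elements of `F_p C_d`: simplicial `d`-chains of the Vietoris-Rips complex at scale `r` on
simplices of cubic dimension at most `p`. -/
def InF (r : ℕ) (p : ℤ) (d : ℕ) (x : Finset (ι → Bool) → R) : Prop :=
  IsCh (IsSimplex r) d x ∧ ∀ σ, x σ ≠ 0 → (cdim σ : ℤ) ≤ p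

/-- The differential `d^i : E^i_{p,q} → E^i_{p-i,q+i-1}`, `p + q = d`, vanishes. With
`Z^i_p = {x ∈ F_p : ∂x ∈ F_{p-i}}` one has `E^i_p = Z^i_p / (Z^{i-1}_{p-1} + ∂ Z^{i-1}_{p+i-1})`
and `d^i [x] = [∂x]`, so that `d^i = 0` means: for every `x ∈ Z^i_p` there is `y ∈ F_{p-1}` with
`∂x - ∂y ∈ F_{p-i-1}`. -/
def DiffZero (pos : (ι → Bool) → ℕ) (R : Type*) [CommRing R] (r i : ℕ) (p : ℤ) (d : ℕ) : Prop :=
  ∀ x : Finset (ι → Bool) → R, InF r p d x →
    (∀ σ, bd pos (IsSimplex r) x σ ≠ 0 → (cdim σ : ℤ) ≤ p - i) →
    ∃ y : Finset (ι → Bool) → R, InF r (p - 1) d y ∧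
      ∀ σ, (bd pos (IsSimplex r) x - bd pos (IsSimplex r) y) σ ≠ 0 → (cdim σ : ℤ) ≤ p - i - 1

theorem isSimplex_conv (r : ℕ) : ∀ σ ρ τ : Finset (ι → Bool), IsSimplex r σ → IsSimplex r τ →
    σ ⊆ ρ → ρ ⊆ τ → IsSimplex r ρ :=
  fun _ _ _ hσ hτ h1 h2 => ⟨hσ.1.mono h1, fun a ha b hb => hτ.2 a (h2 ha) b (h2 hb)⟩

theorem diffZero (pos : (ι → Bool) → ℕ) (hpos : Function.Injective pos) (r i : ℕ)
    (hi : bnd r < i) (p : ℤ) (d : ℕ) : DiffZero pos R r i p d := by
  classical
  intro x hx hdx
  rcases le_or_gt p (bnd r : ℤ) with hp | hp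
  · -- no simplices of negative cubic dimension
    refine ⟨0, ⟨fun σ h => absurd rfl h, fun σ h => absurd rfl h⟩, ?_⟩
    intro σ hσ
    rw [bd_zero, sub_zero] at hσ
    have := hdx σ hσ
    omega
  · obtain ⟨p', rfl⟩ : ∃ p' : ℕ, p = p' := ⟨p.toNat, by omega⟩
    have hp' : bnd r < p' := by exact_mod_cast hp
    have hsubset : ∀ (v : ι → Bool) (σ : Finset (ι → Bool)), cdim σ ≤ cdim (insert v σ) :=
      fun v σ => cdim_mono (Finset.subset_insert v σ)
    -- the part of cubic dimension exactly `p`
    let xp : Finset (ι → Bool) → R := fun σ => if cdim σ = p' then x σ else 0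
    have hxp : IsCh (ColSimplex r p') d xp := by
      intro σ hσ
      by_cases h : cdim σ = p'
      · simp only [xp, if_pos h] at hσ
        obtain ⟨h1, h2⟩ := hx.1 σ hσ
        exact ⟨⟨h1, h⟩, h2⟩
      · simp only [xp, if_neg h] at hσ
        exact absurd rfl hσ
    have hbd : bd pos (ColSimplex r p') xp = 0 := by
      funext σ
      by_cases h : ColSimplex r p' σ
      · have h1 : bd pos (IsSimplex r) x σ = 0 := by
          by_contra h2
          have := hdx σ h2
          rw [h.2] at this
          omega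
        rw [bd_apply _ _ h.1] at h1
        rw [bd_apply _ _ h, Pi.zero_apply, ← h1]
        refine Finset.sum_congr rfl fun v _ => ?_
        congr 1
        by_cases h3 : cdim (insert v σ) = p'
        · simp only [xp, if_pos h3]
        · simp only [xp, if_neg h3]
          by_contra h4
          have h5 := hx.2 _ (Ne.symm h4)
          have h6 := hsubset v σ
          rw [h.2] at h6
          omega
      · exact bd_of_not _ _ h
    obtain ⟨w, hw, hbw⟩ := column_exact pos hpos hp' d xp hxp hbd
    have hw' : IsCh (IsSimplex r) (d + 1) w := fun σ hσ => ⟨(hw σ hσ).1.1, (hw σ hσ).2⟩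
    refine ⟨x - bd pos (IsSimplex r) w, ⟨?_, ?_⟩, ?_⟩
    · intro σ hσ
      by_cases h : x σ = 0
      · refine IsCh.bd (pos := pos) hw' σ fun h2 => hσ ?_
        rw [Pi.sub_apply, h, h2, sub_zero]
      · exact hx.1 σ h
    · intro σ hσ
      by_contra hcon
      have hle : p' ≤ cdim σ := by omega
      rcases hle.lt_or_eq with h | h
      · apply hσ
        have h1 : x σ = 0 := by
          by_contra h1
          have := hx.2 σ h1
          omega
        have h2 : bd pos (IsSimplex r) w σ = 0 := by
          by_cases h3 : IsSimplex r σ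
          · rw [bd_apply _ _ h3]
            refine Finset.sum_eq_zero fun v _ => ?_
            have : w (insert v σ) = 0 := by
              by_contra h4
              have h5 := (hw _ h4).1.2
              have h6 := hsubset v σ
              omega
            rw [this, mul_zero]
          · exact bd_of_not _ _ h3
        rw [Pi.sub_apply, h1, h2, sub_zero]
      · apply hσ
        rw [Pi.sub_apply]
        by_cases h3 : IsSimplex r σ
        · have h4 := congrFun hbw σ
          rw [bd_apply _ _ (show ColSimplex r p' σ from ⟨h3, h.symm⟩)] at h4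
          simp only [xp, if_pos h.symm] at h4
          rw [bd_apply _ _ h3, h4, sub_self]
        · have h4 : x σ = 0 := by
            by_contra h4
            exact h3 (hx.1 σ h4).1
          rw [h4, bd_of_not _ _ h3, sub_zero]
    · intro σ hσ
      apply absurd _ hσ
      have h1 := bd_bd (pos := pos) hpos (IsSimplex r) (isSimplex_conv r) w
        fun σ h => (hw' σ h).1
      rw [bd_sub, h1, sub_zero, sub_self]
      rfl

end Q181.Cubic
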