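import Pool.Agent.Q181.Cubic.Rule
import Pool.Agent.Q181.Cubic.Chain

/-! Exactness of the columns of large cubic dimension. -/

set_option autoImplicit false

namespace Q181.Cubic

open Finset

variable {ι : Type*} [Fintype ι] [DecidableEq ι]

/-- A simplex of the Vietoris-Rips complex at scale `r` of the cube. -/
def IsSimplex (r : ℕ) (σ : Finset (ι → Bool)) : Prop :=
  σ.Nonempty ∧ ∀ a ∈ σ, ∀ b ∈ σ, hammingDist a b ≤ r

/-- Simplices of cubic dimension exactly `p`. -/
def ColSimplex (r p : ℕ) (σ : Finset (ι → Bool)) : Prop := IsSimplex r σ ∧ cdim σ = p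

theorem cdim_mono {A B : Finset (ι → Bool)} (h : A ⊆ B) : cdim A ≤ cdim B := by
  apply Finset.card_le_card
  intro i hi
  obtain ⟨a, ha, b, hb, hab⟩ := (Finset.mem_filter.1 hi).2
  exact Finset.mem_filter.2 ⟨Finset.mem_univ _, a, h ha, b, h hb, hab⟩

theorem cdim_insert_le {κ : ℕ} (hκ : 1 ≤ κ) {A : Finset (ι → Bool)} {c : ι → Bool}
    (hc : c ∈ S κ A) : cdim (insert c A) ≤ cdim (A.erase c) := by
  apply Finset.card_le_card
  intro i hi
  obtain ⟨a, ha, b, hb, hab⟩ := (Finset.mem_filter.1 hi).2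
  have key : ∀ x ∈ insert c A, ∃ y ∈ A.erase c, y i = x i := by
    intro x hx
    by_cases hxc : x = c
    · obtain ⟨y, hy, hyc, hyi⟩ := mem_S.1 hc {i} (by simpa using hκ)
      exact ⟨y, Finset.mem_erase.2 ⟨hyc, hy⟩, by
        rw [hyi i (Finset.mem_singleton_self i), hxc]⟩
    · exact ⟨x, Finset.mem_erase.2 ⟨hxc, (Finset.mem_insert.1 hx).resolve_left hxc⟩, rfl⟩
  obtain ⟨a', ha', h1⟩ := key a ha
  obtain ⟨b', hb', h2⟩ := key b hb
  exact Finset.mem_filter.2 ⟨Finset.mem_univ _, a', ha', b', hb', by rw [h1, h2]; exact hab⟩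

theorem colSimplex_toggle {r p κ : ℕ} (hκ : r + 1 ≤ κ) {A : Finset (ι → Bool)} {c : ι → Bool}
    (hA : ColSimplex r p A) (hc : c ∈ S κ A) :
    ColSimplex r p (insert c A) ∧ ColSimplex r p (A.erase c) := by
  obtain ⟨⟨hne, hdist⟩, hdim⟩ := hA
  have h1 := cdim_insert_le (by omega) hc
  have h2 := cdim_mono (Finset.erase_subset c A)
  have h3 := cdim_mono (Finset.subset_insert c A)
  refine ⟨⟨⟨⟨c, Finset.mem_insert_self _ _⟩, ?_⟩, by omega⟩, ⟨⟨?_, ?_⟩, by omega⟩⟩
  · intro a ha b hb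
    rcases Finset.mem_insert.1 ha with ha' | ha'
    · rcases Finset.mem_insert.1 hb with hb' | hb'
      · rw [ha', hb', hammingDist_self]; exact Nat.zero_le r
      · have := dist_S hdist hκ hc hb'
        rw [ha']
        omega
    · rcases Finset.mem_insert.1 hb with hb' | hb'
      · have := dist_S hdist hκ hc ha'
        rw [hammingDist_comm, hb']
        omega
      · exact hdist a ha' b hb'
  · obtain ⟨a, ha, hac, -⟩ := mem_S.1 hc ∅ (by simp)
    exact ⟨a, Finset.mem_erase.2 ⟨hac, ha⟩⟩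
  · intro a ha b hb
    exact hdist a (Finset.mem_of_mem_erase ha) b (Finset.mem_of_mem_erase hb)

open Classical in
/-- The first level at which the test succeeds. -/
noncomputable def lev (r : ℕ) (A : Finset (ι → Bool)) : ℕ :=
  if h : ∃ κ, r + 1 ≤ κ ∧ Good r κ A then Nat.find h else 0

theorem lev_spec {r : ℕ} {A : Finset (ι → Bool)} (h : ∃ κ, r + 1 ≤ κ ∧ Good r κ A) :
    r + 1 ≤ lev r A ∧ Good r (lev r A) A ∧ ∀ κ < lev r A, r + 1 ≤ κ → ¬ Good r κ A := by
  classical
  rw [lev, dif_pos h]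
  have h1 := Nat.find_spec h
  refine ⟨h1.1, h1.2, fun κ hκ hrκ hg => ?_⟩
  exact Nat.find_min h hκ ⟨hrκ, hg⟩

theorem lev_eq {r l : ℕ} {A : Finset (ι → Bool)} (h1 : r + 1 ≤ l) (h2 : Good r l A)
    (h3 : ∀ κ < l, r + 1 ≤ κ → ¬ Good r κ A) : lev r A = l := by
  obtain ⟨h4, h5, h6⟩ := lev_spec ⟨l, h1, h2⟩
  rcases lt_trichotomy (lev r A) l with h | h | h
  · exact absurd h5 (h3 _ h h4)
  · exact h
  · exact absurd h2 (h6 _ h h1)

/-- The canonical centre. -/
noncomputable def cen (r : ℕ) (A : Finset (ι → Bool)) : ι → Bool := ctr r (lev r A) A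

/-- The ordering key. -/
noncomputable def keyFun (r : ℕ) (A : Finset (ι → Bool)) : ℕ → ℕ := fun m =>
  if m % 2 = 0 then (if r + 1 ≤ m / 2 ∧ m / 2 ≤ lev r A then (S (m / 2) A).card else 0)
  else (if m / 2 = lev r A then 1 else 0)

/-- Invariance under a toggle. -/
theorem toggle_inv {r : ℕ} {A A' : Finset (ι → Bool)} (h : ∃ κ, r + 1 ≤ κ ∧ Good r κ A)
    (hS : ∀ κ < lev r A + 1, S κ A' = S κ A)
    (hc : cen r A ∈ S (lev r A + 1) A') :
    lev r A' = lev r A ∧ cen r A' = cen r A ∧ keyFun r A' = keyFun r A := by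
  obtain ⟨h1, h2, h3⟩ := lev_spec h
  have hl : lev r A' = lev r A := by
    refine lev_eq h1 ⟨?_, ?_⟩ ?_
    · rw [hS _ (Nat.lt_succ_self _)]
      exact h2.1
    · rw [ctr_congr (hS _ (Nat.lt_succ_self _))]
      exact hc
    · intro κ hκ hrκ hg
      apply h3 κ hκ hrκ
      refine ⟨?_, ?_⟩
      · rw [← hS κ (by omega)]
        exact hg.1
      · rw [← ctr_congr (hS κ (by omega)), ← hS (κ + 1) (by omega)]
        exact hg.2
  refine ⟨hl, ?_, ?_⟩
  · rw [cen, cen, hl]
    exact ctr_congr (hS _ (Nat.lt_succ_self _))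
  · funext m
    unfold keyFun
    rw [hl]
    by_cases hm : r + 1 ≤ m / 2 ∧ m / 2 ≤ lev r A
    · rw [hS (m / 2) (by omega)]
    · rw [if_neg hm, if_neg hm]

theorem toggle_insert {r : ℕ} {A : Finset (ι → Bool)} (h : ∃ κ, r + 1 ≤ κ ∧ Good r κ A) :
    cen r (insert (cen r A) A) = cen r A ∧
      keyFun r (insert (cen r A) A) = keyFun r A := by
  obtain ⟨h1, h2, h3⟩ := lev_spec h
  have hc : cen r A ∈ S (lev r A + 1) A := h2.2
  exact (toggle_inv h (fun κ hκ => S_insert_eq hc hκ) (mem_S_insert.2 hc)).2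

theorem toggle_erase {r : ℕ} {A : Finset (ι → Bool)} (h : ∃ κ, r + 1 ≤ κ ∧ Good r κ A) :
    cen r (A.erase (cen r A)) = cen r A ∧
      keyFun r (A.erase (cen r A)) = keyFun r A := by
  obtain ⟨h1, h2, h3⟩ := lev_spec h
  have hc : cen r A ∈ S (lev r A + 1) A := h2.2
  exact (toggle_inv h (fun κ hκ => S_erase_eq hc hκ) (mem_S_erase.2 hc)).2

theorem keyFun_odd (r : ℕ) (A : Finset (ι → Bool)) (κ : ℕ) :
    keyFun r A (2 * κ + 1) = if κ = lev r A then 1 else 0 := by
  have h1 : (2 * κ + 1) % 2 ≠ 0 := by omega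
  have h2 : (2 * κ + 1) / 2 = κ := by omega
  rw [keyFun, if_neg h1, h2]

theorem keyFun_even (r : ℕ) (A : Finset (ι → Bool)) (κ : ℕ) :
    keyFun r A (2 * κ) = if r + 1 ≤ κ ∧ κ ≤ lev r A then (S κ A).card else 0 := by
  have h1 : (2 * κ) % 2 = 0 := by omega
  have h2 : (2 * κ) / 2 = κ := by omega
  rw [keyFun, if_pos h1, h2]

/-- If the keys agree, so do the centres. -/
theorem cen_eq_of_key {r : ℕ} {A B : Finset (ι → Bool)} (hA : ∃ κ, r + 1 ≤ κ ∧ Good r κ A)
    (hAB : A ⊆ B) (h : keyFun r A = keyFun r B) : cen r A = cen r B := by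
  have h1 := congrFun h (2 * lev r A + 1)
  rw [keyFun_odd, keyFun_odd, if_pos rfl] at h1
  have h2 : lev r A = lev r B := by
    by_contra hne
    rw [if_neg hne] at h1
    exact one_ne_zero h1
  have h3 := congrFun h (2 * lev r A)
  obtain ⟨h4, -, -⟩ := lev_spec hA
  rw [keyFun_even, keyFun_even, if_pos ⟨h4, le_rfl⟩, if_pos ⟨h4, h2.le⟩] at h3
  have h5 : S (lev r A) A = S (lev r A) B :=
    Finset.eq_of_subset_of_card_le (S_mono hAB) h3.ge
  rw [cen, cen, ← h2]
  exact ctr_congr h5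

/-- The keys are monotone for the lexicographic order. -/
theorem key_mono {r : ℕ} {A B : Finset (ι → Bool)} (hA : ∃ κ, r + 1 ≤ κ ∧ Good r κ A)
    (hB : ∃ κ, r + 1 ≤ κ ∧ Good r κ B) (hAB : A ⊆ B) :
    toLex (keyFun r A) ≤ toLex (keyFun r B) := by
  classical
  by_cases heq : keyFun r A = keyFun r B
  · rw [heq]
  apply le_of_lt
  have hex : ∃ m, keyFun r A m ≠ keyFun r B m := by
    by_contra hcon
    push Not at hcon
    exact heq (funext hcon)
  set m := Nat.find hex with hm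
  have hne : keyFun r A m ≠ keyFun r B m := Nat.find_spec hex
  have hmin : ∀ j, j < m → keyFun r A j = keyFun r B j := by
    intro j hj
    by_contra h
    exact Nat.find_min hex hj h
  obtain ⟨a1, a2, a3⟩ := lev_spec hA
  obtain ⟨b1, b2, b3⟩ := lev_spec hB
  -- both levels are at least `m / 2`
  have hlev : ∀ κ, 2 * κ + 1 < m → (κ = lev r A ↔ κ = lev r B) := by
    intro κ hκ
    have := hmin _ hκ
    rw [keyFun_odd, keyFun_odd] at this
    by_cases h1 : κ = lev r A <;> by_cases h2 : κ = lev r B <;> simp_all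
  refine ⟨m, hmin, ?_⟩
  show keyFun r A m < keyFun r B m
  rcases Nat.even_or_odd' m with ⟨κ, hκ | hκ⟩
  · rw [hκ, keyFun_even, keyFun_even] at hne ⊢
    have hge : κ ≤ lev r A ∧ κ ≤ lev r B := by
      by_contra hcon
      have h4 : lev r A < κ ∨ lev r B < κ := by omega
      have h5 : lev r A = lev r B := by
        rcases h4 with h4 | h4
        · exact (hlev (lev r A) (by omega)).1 rfl
        · exact ((hlev (lev r B) (by omega)).2 rfl).symm
      apply hne
      rw [if_neg (by omega), if_neg (by omega)]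
    by_cases hr : r + 1 ≤ κ
    · rw [if_pos ⟨hr, hge.1⟩, if_pos ⟨hr, hge.2⟩] at hne ⊢
      exact lt_of_le_of_ne (Finset.card_le_card (S_mono hAB)) hne
    · exfalso
      apply hne
      rw [if_neg (fun h => hr h.1), if_neg (fun h => hr h.1)]
  · rw [hκ, keyFun_odd, keyFun_odd] at hne ⊢
    have hge : κ ≤ lev r A ∧ κ ≤ lev r B := by
      by_contra hcon
      have h4 : lev r A < κ ∨ lev r B < κ := by omega
      have h5 : lev r A = lev r B := by
        rcases h4 with h4 | h4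
        · exact (hlev (lev r A) (by omega)).1 rfl
        · exact ((hlev (lev r B) (by omega)).2 rfl).symm
      apply hne
      rw [if_neg (by omega), if_neg (by omega)]
    by_cases h1 : κ = lev r A
    · exfalso
      -- then the test succeeds for `B` at the same level
      have h2 : κ ≠ lev r B := by
        intro h2
        apply hne
        rw [if_pos h1, if_pos h2]
      have h3 := hmin (2 * κ) (by omega)
      rw [keyFun_even, keyFun_even, if_pos ⟨by omega, hge.1⟩, if_pos ⟨by omega, hge.2⟩] at h3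
      have h5 : S κ A = S κ B := Finset.eq_of_subset_of_card_le (S_mono hAB) h3.ge
      apply b3 κ (by omega) (by omega)
      rw [← h1] at a2
      refine ⟨h5 ▸ a2.1, ?_⟩
      rw [← ctr_congr h5]
      exact S_mono hAB a2.2
    · rw [if_neg h1] at hne ⊢
      by_cases h2 : κ = lev r B
      · rw [if_pos h2]; exact Nat.one_pos
      · rw [if_neg h2] at hne
        exact absurd rfl hne

/-- The columns of cubic dimension larger than `bnd r` are exact. -/
theorem column_exact {R : Type*} [CommRing R] (pos : (ι → Bool) → ℕ)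
    (hpos : Function.Injective pos) {r p : ℕ} (hp : bnd r < p) (d : ℕ)
    (f : Finset (ι → Bool) → R) (hf : IsCh (ColSimplex r p) d f)
    (hbd : bd pos (ColSimplex r p) f = 0) :
    ∃ g : Finset (ι → Bool) → R, IsCh (ColSimplex r p) (d + 1) g ∧
      bd pos (ColSimplex r p) g = f := by
  have hgood : ∀ σ : Finset (ι → Bool), ColSimplex r p σ → ∃ κ, r + 1 ≤ κ ∧ Good r κ σ := by
    intro σ hσ
    exact exists_good hσ.1.2 (by rw [hσ.2]; exact hp)
  have hcen : ∀ σ : Finset (ι → Bool), ColSimplex r p σ → cen r σ ∈ S (lev r σ + 1) σ :=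
    fun σ hσ => (lev_spec (hgood σ hσ)).2.1.2
  have hlev : ∀ σ : Finset (ι → Bool), ColSimplex r p σ → r + 1 ≤ lev r σ + 1 :=
    fun σ hσ => (lev_spec (hgood σ hσ)).1.trans (Nat.le_succ _)
  refine exact_of_matching hpos (ColSimplex r p) ?_ (cen r) (fun σ => toLex (keyFun r σ))
    ?_ ?_ ?_ ?_ d f hf hbd
  · intro σ ρ τ hσ hτ h1 h2
    refine ⟨⟨hσ.1.1.mono h1, fun a ha b hb => hτ.1.2 a (h2 ha) b (h2 hb)⟩, ?_⟩
    exact le_antisymm ((cdim_mono h2).trans hτ.2.le) (hσ.2.ge.trans (cdim_mono h1))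
  · intro σ hσ
    have h1 := toggle_insert (hgood σ hσ)
    exact ⟨(colSimplex_toggle (hlev σ hσ) hσ (hcen σ hσ)).1, h1.1, by rw [h1.2]⟩
  · intro σ hσ
    have h1 := toggle_erase (hgood σ hσ)
    exact ⟨(colSimplex_toggle (hlev σ hσ) hσ (hcen σ hσ)).2, h1.1, by rw [h1.2]⟩
  · intro σ τ hσ hτ h
    exact key_mono (hgood σ hσ) (hgood τ hτ) h
  · intro σ τ hσ hτ h heq
    exact cen_eq_of_key (hgood σ hσ) h (toLex.injective heq)

end Q181.Cubic
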