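import Pool.Agent.Q181.Cubic.Centers

/-! A canonical centre of a family of vertices, stable under adding and removing it. -/

set_option autoImplicit false

namespace Q181.Cubic

open Finset Function

variable {ι : Type*} [Fintype ι] [DecidableEq ι]

theorem It_anti {κ κ' : ℕ} (h : κ ≤ κ') (j : ℕ) {A B : Finset (ι → Bool)} (hAB : A ⊆ B) :
    (S κ')^[j] A ⊆ (S κ)^[j] B := by
  induction j with
  | zero => exact hAB
  | succ j ih =>
    rw [iterate_succ_apply', iterate_succ_apply']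
    exact (S_mono ih).trans (S_anti h _)

theorem It_nest (κ j : ℕ) (A : Finset (ι → Bool)) : (S (κ + j))^[j + 1] A ⊆ S κ A := by
  induction j with
  | zero => exact le_rfl
  | succ j ih =>
    refine subset_trans ?_ ih
    rw [iterate_succ_apply, iterate_succ_apply, iterate_succ_apply]
    exact It_anti (by omega) j (S_S A)

theorem dist_It {r κ : ℕ} {A : Finset (ι → Bool)}
    (hA : ∀ a ∈ A, ∀ b ∈ A, hammingDist a b ≤ r) (hκ : r + 1 ≤ κ) (j : ℕ) :
    ∀ c ∈ (S κ)^[j] A, ∀ c' ∈ (S κ)^[j] A, hammingDist c c' + 2 * j ≤ r := by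
  induction j with
  | zero => simpa using hA
  | succ j ih =>
    intro c hc c' hc'
    rw [iterate_succ_apply'] at hc hc'
    have := dist_S_S (r := r - 2 * j) (κ := κ) (fun a ha b hb => by
      have := ih a ha b hb
      omega) (by omega) hc hc'
    omega

/-- The number of times the centres of centres can be taken. -/
noncomputable def depth (r κ : ℕ) (T : Finset (ι → Bool)) : ℕ := by
  classical
  exact Nat.findGreatest (fun j => ((S κ)^[j] T).Nonempty) r

/-- The last nonempty family of iterated centres. -/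
noncomputable def core (r κ : ℕ) (T : Finset (ι → Bool)) : Finset (ι → Bool) :=
  (S κ)^[depth r κ T] T

theorem core_nonempty {r κ : ℕ} {T : Finset (ι → Bool)} (h : T.Nonempty) :
    (core r κ T).Nonempty := by
  classical
  have := Nat.findGreatest_spec (P := fun j => ((S κ)^[j] T).Nonempty) (Nat.zero_le r) h
  rw [core, depth]
  exact this

theorem depth_bound {r κ : ℕ} {A : Finset (ι → Bool)}
    (hA : ∀ a ∈ A, ∀ b ∈ A, hammingDist a b ≤ r) (hκ : r + 1 ≤ κ) (hne : (S κ A).Nonempty) :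
    2 * (depth r κ (S κ A) + 1) ≤ r := by
  obtain ⟨c, hc⟩ := core_nonempty (r := r) (κ := κ) hne
  rw [core, ← iterate_succ_apply] at hc
  have := dist_It hA hκ _ c hc c hc
  omega

theorem S_core {r κ : ℕ} {A : Finset (ι → Bool)}
    (hA : ∀ a ∈ A, ∀ b ∈ A, hammingDist a b ≤ r) (hκ : r + 1 ≤ κ) :
    S κ (core r κ (S κ A)) = ∅ := by
  classical
  by_contra hcon
  rw [← ne_eq, ← Finset.nonempty_iff_ne_empty] at hcon
  rw [core, ← iterate_succ_apply' (S κ)] at hcon
  have h1 : depth r κ (S κ A) + 1 ≤ r := by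
    obtain ⟨c, hc⟩ := hcon
    rw [← iterate_succ_apply (S κ) _ A] at hc
    have := dist_It hA hκ _ c hc c hc
    omega
  exact Nat.findGreatest_is_greatest (P := fun j => ((S κ)^[j] (S κ A)).Nonempty) (n := r)
    (k := depth r κ (S κ A) + 1) (by rw [depth]; omega) h1 hcon

theorem card_core {r κ : ℕ} {A : Finset (ι → Bool)}
    (hA : ∀ a ∈ A, ∀ b ∈ A, hammingDist a b ≤ r) (hκ : r + 1 ≤ κ) :
    (core r κ (S κ A)).card ≤ (κ + 1) ^ r := by
  rcases (core r κ (S κ A)).eq_empty_or_nonempty with h | ⟨c, hc⟩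
  · rw [h]; simp
  · have h1 := (bound (S_core hA hκ) r c).1
    rwa [Finset.filter_true_of_mem] at h1
    intro a ha
    rw [core, ← iterate_succ_apply] at ha hc
    have := dist_It hA hκ _ a ha c hc
    omega

/-- Choose an element. -/
noncomputable def pick (T : Finset (ι → Bool)) : ι → Bool :=
  if h : T.Nonempty then h.choose else fun _ => false

theorem pick_mem {T : Finset (ι → Bool)} (h : T.Nonempty) : pick T ∈ T := by
  rw [pick, dif_pos h]
  exact h.choose_spec

/-- The candidate at level `κ`. -/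
noncomputable def ctr (r κ : ℕ) (A : Finset (ι → Bool)) : ι → Bool := pick (core r κ (S κ A))

/-- The test at level `κ` succeeds. -/
def Good (r κ : ℕ) (A : Finset (ι → Bool)) : Prop :=
  (S κ A).Nonempty ∧ ctr r κ A ∈ S (κ + 1) A

theorem ctr_congr {r κ : ℕ} {A B : Finset (ι → Bool)} (h : S κ A = S κ B) :
    ctr r κ A = ctr r κ B := by
  rw [ctr, ctr, h]

/-- One step of the counting argument. -/
theorem step {r κ d : ℕ} {A : Finset (ι → Bool)}
    (hd : depth r κ (S κ A) = d) (hne : (S (κ + 1 + d) A).Nonempty) (hbad : ¬ Good r κ A) :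
    depth r (κ + 1 + d) (S (κ + 1 + d) A) ≤ d ∧ (depth r (κ + 1 + d) (S (κ + 1 + d) A) = d →
      (core r (κ + 1 + d) (S (κ + 1 + d) A)).card < (core r κ (S κ A)).card) := by
  classical
  have hsub : ∀ j, (S (κ + 1 + d))^[j] (S (κ + 1 + d) A) ⊆ (S κ)^[j] (S κ A) := fun j =>
    It_anti (by omega) j (S_anti (by omega) A)
  constructor
  · have h1 := core_nonempty (r := r) (κ := κ + 1 + d) hne
    have h2 : ((S κ)^[depth r (κ + 1 + d) (S (κ + 1 + d) A)] (S κ A)).Nonempty :=
      h1.mono (hsub _)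
    have h3 : depth r (κ + 1 + d) (S (κ + 1 + d) A) ≤ r := Nat.findGreatest_le r
    have h4 := Nat.le_findGreatest (P := fun j => ((S κ)^[j] (S κ A)).Nonempty) h3 h2
    exact h4.trans hd.le
  · intro heq
    have h1 : core r (κ + 1 + d) (S (κ + 1 + d) A) ⊆ core r κ (S κ A) := by
      rw [core, core, heq, hd]
      exact hsub d
    have h2 : core r (κ + 1 + d) (S (κ + 1 + d) A) ⊆ S (κ + 1) A := by
      rw [core, heq, ← iterate_succ_apply]
      exact It_nest (κ + 1) d A
    have hneκ : (S κ A).Nonempty := hne.mono (S_anti (by omega) A)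
    have h3 : ctr r κ A ∈ core r κ (S κ A) := pick_mem (core_nonempty hneκ)
    apply Finset.card_lt_card
    refine ⟨h1, fun h => hbad ⟨hneκ, h2 (h h3)⟩⟩

theorem drop {r d : ℕ} {A : Finset (ι → Bool)}
    (hbad : ∀ κ, r + 1 ≤ κ → ¬ Good r κ A) : ∀ (m κ : ℕ), r + 1 ≤ κ →
    depth r κ (S κ A) = d → (core r κ (S κ A)).card ≤ m →
    (∀ κ' ≤ κ + (d + 1) * m, (S κ' A).Nonempty) →
    ∃ κ', κ ≤ κ' ∧ κ' ≤ κ + (d + 1) * m ∧ depth r κ' (S κ' A) < d := by
  intro m
  induction m with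
  | zero =>
    intro κ _ _ hcard hne
    have h1 := core_nonempty (r := r) (κ := κ) (hne κ (by omega))
    have := h1.card_pos
    omega
  | succ m ih =>
    intro κ hκ hd hcard hne
    have he : κ + (d + 1) * (m + 1) = κ + 1 + d + (d + 1) * m := by ring
    rw [he] at hne ⊢
    obtain ⟨h1, h2⟩ := step hd (hne (κ + 1 + d) (Nat.le_add_right _ _)) (hbad κ hκ)
    rcases Nat.lt_or_eq_of_le h1 with h | h
    · exact ⟨κ + 1 + d, by omega, Nat.le_add_right _ _, h⟩
    · obtain ⟨κ', h3, h4, h5⟩ := ih (κ + 1 + d) (by omega) h (by have := h2 h; omega) hne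
      exact ⟨κ', by omega, h4, h5⟩

/-- The growth function of the levels. -/
def grow (r κ : ℕ) : ℕ := (κ + 1) ^ (r + 1)

theorem grow_mono (r : ℕ) : Monotone (grow r) := fun _ _ h => Nat.pow_le_pow_left (by omega) _

theorem le_grow (r κ : ℕ) : κ ≤ grow r κ :=
  (Nat.le_succ κ).trans (Nat.le_self_pow (Nat.succ_ne_zero r) (κ + 1))

theorem main_count {r : ℕ} {A : Finset (ι → Bool)}
    (hA : ∀ a ∈ A, ∀ b ∈ A, hammingDist a b ≤ r)
    (hbad : ∀ κ, r + 1 ≤ κ → ¬ Good r κ A) : ∀ (d κ : ℕ), r + 1 ≤ κ →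
    depth r κ (S κ A) ≤ d → (∀ κ' ≤ (grow r)^[d + 1] κ, (S κ' A).Nonempty) → False := by
  -- one drop
  have hdrop : ∀ κ, r + 1 ≤ κ → (∀ κ' ≤ grow r κ, (S κ' A).Nonempty) →
      ∃ κ', κ ≤ κ' ∧ κ' ≤ grow r κ ∧ depth r κ' (S κ' A) < depth r κ (S κ A) := by
    intro κ hκ hne
    have hneκ := hne κ (le_grow r κ)
    have h1 := depth_bound hA hκ hneκ
    set d := depth r κ (S κ A) with hd
    have h2 : κ + (d + 1) * (κ + 1) ^ r ≤ grow r κ := by
      have h3 : (d + 1) * (κ + 1) ^ r ≤ κ * (κ + 1) ^ r := Nat.mul_le_mul_right _ (by omega)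
      have h4 : grow r κ = κ * (κ + 1) ^ r + (κ + 1) ^ r := by
        rw [grow]; ring
      have h5 : κ + 1 ≤ (κ + 1) ^ r := Nat.le_self_pow (by omega) _
      omega
    obtain ⟨κ', h3, h4, h5⟩ := drop hbad ((κ + 1) ^ r) κ hκ hd.symm (card_core hA hκ)
      fun κ' h => hne κ' (h.trans h2)
    exact ⟨κ', h3, h4.trans h2, h5⟩
  intro d
  induction d with
  | zero =>
    intro κ hκ hd hne
    obtain ⟨κ', -, -, h⟩ := hdrop κ hκ hne
    omega
  | succ d ih =>
    intro κ hκ hd hne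
    rw [iterate_succ_apply] at hne
    have hinf : ∀ x m, x ≤ (grow r)^[m] x := by
      intro x m
      induction m with
      | zero => exact le_rfl
      | succ m ihm =>
        rw [iterate_succ_apply']
        exact ihm.trans (le_grow r _)
    obtain ⟨κ', h1, h2, h3⟩ := hdrop κ hκ fun κ' h => hne κ' (h.trans (hinf _ _))
    exact ih κ' (by omega) (by omega) fun κ'' h =>
      hne κ'' (h.trans ((grow_mono r).iterate (d + 1) h2))

/-- The explicit bound. -/
def bnd (r : ℕ) : ℕ := (2 * r + 2) ^ (r * (r + 2) ^ (r / 2))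

theorem iterate_grow (r m : ℕ) :
    2 * (grow r)^[m] (r + 1) ≤ (2 * r + 2) ^ ((r + 2) ^ m) ∧ 1 ≤ (grow r)^[m] (r + 1) := by
  induction m with
  | zero => simp; omega
  | succ m ih =>
    obtain ⟨h1, h2⟩ := ih
    rw [iterate_succ_apply']
    set x := (grow r)^[m] (r + 1) with hx
    refine ⟨?_, Nat.one_le_pow _ _ (Nat.succ_pos _)⟩
    calc 2 * grow r x = 2 * (x + 1) ^ (r + 1) := rfl
      _ ≤ (2 * r + 2) * (2 * x) ^ (r + 1) :=
        Nat.mul_le_mul (by omega) (Nat.pow_le_pow_left (by omega) _)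
      _ ≤ (2 * r + 2) * ((2 * r + 2) ^ ((r + 2) ^ m)) ^ (r + 1) :=
        Nat.mul_le_mul_left _ (Nat.pow_le_pow_left h1 _)
      _ = (2 * r + 2) ^ (1 + (r + 2) ^ m * (r + 1)) := by
        rw [← pow_mul, pow_add, pow_one]
      _ ≤ (2 * r + 2) ^ ((r + 2) ^ (m + 1)) := by
        apply Nat.pow_le_pow_right (by omega)
        have h3 : 1 ≤ (r + 2) ^ m := Nat.one_le_pow _ _ (by omega)
        calc 1 + (r + 2) ^ m * (r + 1) ≤ (r + 2) ^ m + (r + 2) ^ m * (r + 1) := by omega
          _ = (r + 2) ^ (m + 1) := by ring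

/-- The number of coordinates that are not constant on `A`. -/
def cdim (A : Finset (ι → Bool)) : ℕ :=
  (Finset.univ.filter fun i => ∃ a ∈ A, ∃ b ∈ A, a i ≠ b i).card

theorem cdim_lt {r κ : ℕ} {A : Finset (ι → Bool)} (hA : ∀ a ∈ A, ∀ b ∈ A, hammingDist a b ≤ r)
    (h : S κ A = ∅) : cdim A + 1 ≤ (κ + 1) ^ r := by
  rcases A.eq_empty_or_nonempty with rfl | ⟨c, hc⟩
  · have : cdim (∅ : Finset (ι → Bool)) = 0 := by
      rw [cdim, Finset.card_eq_zero, Finset.filter_eq_empty_iff]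
      rintro i _ ⟨a, ha, -⟩
      exact absurd ha (Finset.notMem_empty _)
    rw [this]
    exact Nat.one_le_pow _ _ (Nat.succ_pos _)
  · refine le_trans (Nat.succ_le_succ (Finset.card_le_card ?_)) (bound h r c).2
    intro i hi
    obtain ⟨a, ha, b, hb, hab⟩ := (Finset.mem_filter.1 hi).2
    refine Finset.mem_filter.2 ⟨Finset.mem_univ _, ?_⟩
    by_cases hac : a i = c i
    · exact ⟨b, hb, hA b hb c hc, fun h => hab (hac.trans h.symm)⟩
    · exact ⟨a, ha, hA a ha c hc, hac⟩

/-- Families of large cubic dimension have a canonical centre. -/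
theorem exists_good {r : ℕ} {A : Finset (ι → Bool)}
    (hA : ∀ a ∈ A, ∀ b ∈ A, hammingDist a b ≤ r) (hd : bnd r < cdim A) :
    ∃ κ, r + 1 ≤ κ ∧ Good r κ A := by
  by_contra hcon
  push Not at hcon
  obtain ⟨h1, h2⟩ := iterate_grow r (r / 2)
  have hne : ∀ κ ≤ (grow r)^[r / 2] (r + 1), (S κ A).Nonempty := by
    intro κ hκ
    by_contra h
    rw [Finset.not_nonempty_iff_eq_empty] at h
    have h3 := cdim_lt hA h
    have h4 : (κ + 1) ^ r ≤ bnd r := by
      calc (κ + 1) ^ r ≤ (2 * (grow r)^[r / 2] (r + 1)) ^ r := Nat.pow_le_pow_left (by omega) _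
        _ ≤ ((2 * r + 2) ^ ((r + 2) ^ (r / 2))) ^ r := Nat.pow_le_pow_left h1 _
        _ = bnd r := by rw [bnd, ← pow_mul, mul_comm ((r + 2) ^ (r / 2)) r]
    omega
  have hinf : ∀ m, r + 1 ≤ (grow r)^[m] (r + 1) := by
    intro m
    induction m with
    | zero => exact le_rfl
    | succ m ihm =>
      rw [iterate_succ_apply']
      exact ihm.trans (le_grow r _)
  have h3 := depth_bound hA le_rfl (hne _ (hinf _))
  obtain ⟨M, hM⟩ : ∃ M, r / 2 = M + 1 := ⟨r / 2 - 1, by omega⟩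
  rw [hM] at hne
  exact main_count hA hcon M (r + 1) le_rfl (by omega) hne

end Q181.Cubic
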